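import Pool.Agent.Helper57.QZ.Stmts2

/-!
# Row KE1 of the second sheet: bounds for the smoothing coefficients
-/

set_option autoImplicit false

namespace Pool.Agent.Helper57.QZ

open MeasureTheory Set Filter Topology Complex

namespace KE50

/-- primitive of `1 / (u + c i)` -/
noncomputable def P (c u : ℝ) : ℂ :=
  ((1 / 2 * Real.log (u ^ 2 + c ^ 2) : ℝ) : ℂ) - ((Real.arctan (u / c) : ℝ) : ℂ) * I

theorem ne0 {c : ℝ} (hc : c ≠ 0) (u : ℝ) : (u : ℂ) + (c : ℂ) * I ≠ 0 := by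
  intro h
  have := congrArg Complex.im h
  simp at this
  exact hc this

theorem hasDeriv {c : ℝ} (hc : c ≠ 0) (u : ℝ) :
    HasDerivAt (P c) ((u : ℂ) + (c : ℂ) * I)⁻¹ u := by
  have hpos : 0 < u ^ 2 + c ^ 2 := by positivity
  have h1 : HasDerivAt (fun u : ℝ => 1 / 2 * Real.log (u ^ 2 + c ^ 2)) (u / (u ^ 2 + c ^ 2)) u := by
    have h := (((hasDerivAt_pow 2 u).add_const (c ^ 2)).log hpos.ne').const_mul (1 / 2 : ℝ)
    refine h.congr_deriv ?_
    simp only [Nat.cast_ofNat]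
    field_simp
    ring
  have h2 : HasDerivAt (fun u : ℝ => Real.arctan (u / c)) (c / (u ^ 2 + c ^ 2)) u := by
    have h := ((hasDerivAt_id u).div_const c).arctan
    refine h.congr_deriv ?_
    simp only [id_eq]
    field_simp
    ring
  have h3 := h1.ofReal_comp.sub (h2.ofReal_comp.mul_const I)
  refine HasDerivAt.congr_deriv h3 ?_
  have hx : u * (u / (u ^ 2 + c ^ 2)) + c * (c / (u ^ 2 + c ^ 2)) = 1 := by
    field_simp
  have hy : c * (u / (u ^ 2 + c ^ 2)) = u * (c / (u ^ 2 + c ^ 2)) := by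
    ring
  clear h3 h2 h1
  generalize u / (u ^ 2 + c ^ 2) = X at hx hy
  generalize c / (u ^ 2 + c ^ 2) = Y at hx hy
  symm
  apply inv_eq_of_mul_eq_one_right
  apply Complex.ext
  · simp
    linarith
  · simp
    linarith

theorem cont_inv {c : ℝ} (hc : c ≠ 0) : Continuous fun u : ℝ => ((u : ℂ) + (c : ℂ) * I)⁻¹ :=
  Continuous.inv₀ (by fun_prop) (ne0 hc)

theorem int_inv {c : ℝ} (hc : c ≠ 0) (a b : ℝ) :
    ∫ u in a..b, ((u : ℂ) + (c : ℂ) * I)⁻¹ = P c b - P c a :=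
  intervalIntegral.integral_eq_sub_of_hasDerivAt (fun u _ => hasDeriv hc u)
    ((cont_inv hc).intervalIntegrable a b)

theorem int_inv' {b : ℝ} (hb : b ≠ 0) (H : ℝ) :
    I * ∫ v in (-H)..H, ((b : ℂ) + (v : ℂ) * I)⁻¹ = P (-b) H - P (-b) (-H) := by
  rw [← int_inv (neg_ne_zero.2 hb), ← intervalIntegral.integral_const_mul]
  refine intervalIntegral.integral_congr fun v _ => ?_
  have h1 : (b : ℂ) + (v : ℂ) * I = I * ((v : ℂ) + ((-b : ℝ) : ℂ) * I) := by
    push_cast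
    linear_combination (b : ℂ) * I_mul_I
  change I * ((b : ℂ) + (v : ℂ) * I)⁻¹ = ((v : ℂ) + ((-b : ℝ) : ℂ) * I)⁻¹
  rw [h1, mul_inv, ← mul_assoc, mul_inv_cancel₀ I_ne_zero, one_mul]

theorem rect_inv {b H : ℝ} (hb : 0 < b) (hH : 0 < H) :
    (∫ u in (-1 : ℝ)..b, ((u : ℂ) + ((-H : ℝ) : ℂ) * I)⁻¹) -
      (∫ u in (-1 : ℝ)..b, ((u : ℂ) + (H : ℂ) * I)⁻¹) +
      I * (∫ v in (-H)..H, ((b : ℂ) + (v : ℂ) * I)⁻¹) -
      I * (∫ v in (-H)..H, (((-1 : ℝ) : ℂ) + (v : ℂ) * I)⁻¹) = 2 * Real.pi * I := by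
  rw [int_inv (neg_ne_zero.2 hH.ne'), int_inv hH.ne', int_inv' hb.ne', int_inv' (by norm_num)]
  have e1 : Real.arctan (b / H) + Real.arctan (H / b) = Real.pi / 2 := by
    have h := Real.arctan_inv_of_pos (div_pos hH hb)
    rw [inv_div] at h
    linarith
  have e2 : Real.arctan (1 / H) + Real.arctan H = Real.pi / 2 := by
    have h := Real.arctan_inv_of_pos hH
    rw [one_div]
    linarith
  have a1 : b / -H = -(b / H) := by rw [div_neg]
  have a2 : (-1 : ℝ) / -H = 1 / H := by rw [neg_div_neg_eq]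
  have a3 : (-1 : ℝ) / H = -(1 / H) := by rw [neg_div]
  have a4 : H / -b = -(H / b) := by rw [div_neg]
  have a5 : -H / -b = H / b := by rw [neg_div_neg_eq]
  have a6 : H / -(-1 : ℝ) = H := by norm_num
  have a7 : -H / -(-1 : ℝ) = -H := by norm_num
  unfold P
  rw [a1, a2, a3, a4, a5, a6, a7, Real.arctan_neg, Real.arctan_neg, Real.arctan_neg,
    Real.arctan_neg]
  have f1 : (-H) ^ 2 = H ^ 2 := by ring
  have f2 : (-b) ^ 2 = b ^ 2 := by ring
  rw [f1, f2]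
  clear a1 a2 a3 a4 a5 a6 a7 f1 f2
  generalize Real.arctan (b / H) = A1 at e1
  generalize Real.arctan (H / b) = A2 at e1
  generalize Real.arctan (1 / H) = A3 at e2
  generalize Real.arctan H = A4 at e2
  generalize Real.log (b ^ 2 + H ^ 2) = L1
  generalize Real.log ((-1) ^ 2 + H ^ 2) = L2
  have e3 : A1 + A2 + A3 + A4 = Real.pi := by linarith
  rw [← e3]
  push_cast
  ring

/-- the integral over the rectangle of an entire function divided by `s` -/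
theorem rect {h : ℂ → ℂ} (hd : Differentiable ℂ h) {b H : ℝ} (hb : 0 < b) (hH : 0 < H) :
    (∫ u in (-1 : ℝ)..b, h ((u : ℂ) + ((-H : ℝ) : ℂ) * I) / ((u : ℂ) + ((-H : ℝ) : ℂ) * I)) -
      (∫ u in (-1 : ℝ)..b, h ((u : ℂ) + (H : ℂ) * I) / ((u : ℂ) + (H : ℂ) * I)) +
      I * (∫ v in (-H)..H, h ((b : ℂ) + (v : ℂ) * I) / ((b : ℂ) + (v : ℂ) * I)) -
      I * (∫ v in (-H)..H, h (((-1 : ℝ) : ℂ) + (v : ℂ) * I) / (((-1 : ℝ) : ℂ) + (v : ℂ) * I)) =
        2 * Real.pi * I * h 0 := by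
  have hds : Differentiable ℂ (dslope h 0) := by
    intro z
    have h1 : DifferentiableOn ℂ (dslope h 0) univ :=
      (Complex.differentiableOn_dslope univ_mem).2 hd.differentiableOn
    exact (h1 z (mem_univ z)).differentiableAt univ_mem
  have hcs := hds.continuous
  have key := Complex.integral_boundary_rect_eq_zero_of_differentiableOn (dslope h 0)
    (((-1 : ℝ) : ℂ) + ((-H : ℝ) : ℂ) * I) ((b : ℂ) + (H : ℂ) * I) hds.differentiableOn
  have r1 : (((-1 : ℝ) : ℂ) + ((-H : ℝ) : ℂ) * I).re = -1 := by simp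
  have r2 : (((-1 : ℝ) : ℂ) + ((-H : ℝ) : ℂ) * I).im = -H := by simp
  have r3 : ((b : ℂ) + (H : ℂ) * I).re = b := by simp
  have r4 : ((b : ℂ) + (H : ℂ) * I).im = H := by simp
  rw [r1, r2, r3, r4, smul_eq_mul, smul_eq_mul] at key
  have hdiv : ∀ s : ℂ, s ≠ 0 → h s / s = dslope h 0 s + h 0 * s⁻¹ := by
    intro s hs
    rw [dslope_of_ne _ hs, slope_def_field, sub_zero]
    field_simp
    ring
  have g1 : ∀ c : ℝ, c ≠ 0 → (∫ u in (-1 : ℝ)..b, h ((u : ℂ) + (c : ℂ) * I) /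
      ((u : ℂ) + (c : ℂ) * I)) = (∫ u in (-1 : ℝ)..b, dslope h 0 ((u : ℂ) + (c : ℂ) * I)) +
        h 0 * ∫ u in (-1 : ℝ)..b, ((u : ℂ) + (c : ℂ) * I)⁻¹ := by
    intro c hc
    rw [← intervalIntegral.integral_const_mul, ← intervalIntegral.integral_add
      (Continuous.intervalIntegrable (by fun_prop) _ _)
      (((cont_inv hc).const_mul _).intervalIntegrable _ _)]
    exact intervalIntegral.integral_congr fun u _ => hdiv _ (ne0 hc u)
  have ne1 : ∀ c : ℝ, c ≠ 0 → ∀ v : ℝ, (c : ℂ) + (v : ℂ) * I ≠ 0 := by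
    intro c hc v h0
    have := congrArg Complex.re h0
    simp at this
    exact hc this
  have g2 : ∀ c : ℝ, c ≠ 0 → (∫ v in (-H)..H, h ((c : ℂ) + (v : ℂ) * I) /
      ((c : ℂ) + (v : ℂ) * I)) = (∫ v in (-H)..H, dslope h 0 ((c : ℂ) + (v : ℂ) * I)) +
        h 0 * ∫ v in (-H)..H, ((c : ℂ) + (v : ℂ) * I)⁻¹ := by
    intro c hc
    have hc2 : Continuous fun v : ℝ => ((c : ℂ) + (v : ℂ) * I)⁻¹ :=
      Continuous.inv₀ (by fun_prop) (ne1 c hc)
    rw [← intervalIntegral.integral_const_mul, ← intervalIntegral.integral_add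
      (Continuous.intervalIntegrable (by fun_prop) _ _)
      ((hc2.const_mul _).intervalIntegrable _ _)]
    exact intervalIntegral.integral_congr fun u _ => hdiv _ (ne1 c hc u)
  rw [g1 _ (neg_ne_zero.2 hH.ne'), g1 _ hH.ne', g2 _ hb.ne', g2 _ (by norm_num)]
  have h3 := rect_inv hb hH
  linear_combination key + h 0 * h3

/-- the entire function -/
noncomputable def hh (Q : ℝ) (w : ℂ) : ℂ := (Q : ℂ) ^ w * Complex.exp (w ^ 2)

theorem hh_diff {Q : ℝ} (hQ : 0 < Q) : Differentiable ℂ (hh Q) := by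
  have h0 : (Q : ℂ) ≠ 0 := by exact_mod_cast hQ.ne'
  unfold hh
  exact (Differentiable.const_cpow differentiable_id (Or.inl h0)).mul (by fun_prop)

theorem hh_norm {Q : ℝ} (hQ : 0 < Q) (a v : ℝ) :
    ‖hh Q ((a : ℂ) + (v : ℂ) * I)‖ = Q ^ a * Real.exp (a ^ 2 - v ^ 2) := by
  unfold hh
  rw [norm_mul, Complex.norm_cpow_eq_rpow_re_of_pos hQ, Complex.norm_exp]
  have h1 : ((a : ℂ) + (v : ℂ) * I).re = a := by simp
  have h2 : (((a : ℂ) + (v : ℂ) * I) ^ 2).re = a ^ 2 - v ^ 2 := by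
    rw [sq, Complex.mul_re]
    simp
    ring
  rw [h1, h2]

theorem gauss_bd (f : ℝ → ℂ) {K H : ℝ} (hK : 0 ≤ K) (hH : 0 ≤ H)
    (hf : ∀ v, ‖f v‖ ≤ K * Real.exp (-v ^ 2)) :
    ‖∫ v in (-H)..H, f v‖ ≤ K * ∫ v : ℝ, Real.exp (-v ^ 2) := by
  have hle : -H ≤ H := by linarith
  have hint : Integrable fun v : ℝ => Real.exp (-v ^ 2) := by
    have h := integrable_exp_neg_mul_sq (b := 1) one_pos
    simpa using h
  have h1 : ‖∫ v in (-H)..H, f v‖ ≤ ∫ v in (-H)..H, K * Real.exp (-v ^ 2) :=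
    intervalIntegral.norm_integral_le_of_norm_le hle (ae_of_all _ fun t _ => hf t)
      (Continuous.intervalIntegrable (by fun_prop) _ _)
  refine h1.trans ?_
  rw [intervalIntegral.integral_const_mul]
  refine mul_le_mul_of_nonneg_left ?_ hK
  rw [intervalIntegral.integral_of_le hle]
  exact setIntegral_le_integral hint (ae_of_all _ fun v => (Real.exp_pos _).le)

theorem one_le_norm_re {a v : ℝ} (ha : 1 ≤ |a|) : 1 ≤ ‖(a : ℂ) + (v : ℂ) * I‖ := by
  have h := Complex.abs_re_le_norm ((a : ℂ) + (v : ℂ) * I)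
  have h1 : ((a : ℂ) + (v : ℂ) * I).re = a := by simp
  rw [h1] at h
  linarith

theorem one_le_norm_im {a v : ℝ} (ha : 1 ≤ |v|) : 1 ≤ ‖(a : ℂ) + (v : ℂ) * I‖ := by
  have h := Complex.abs_im_le_norm ((a : ℂ) + (v : ℂ) * I)
  have h1 : ((a : ℂ) + (v : ℂ) * I).im = v := by simp
  rw [h1] at h
  linarith

theorem norm_div_le' {z w : ℂ} (hw : 1 ≤ ‖w‖) : ‖z / w‖ ≤ ‖z‖ := by
  rw [norm_div]
  exact div_le_self (norm_nonneg _) hw

/-- horizontal sides -/
theorem hor {Q Y H b c : ℝ} (hQ : 1 ≤ Q) (hQY : Q ≤ Y) (hH : 1 ≤ |c|) (hc : c ^ 2 = H ^ 2)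
    (hb : 0 < b) (hb' : b ≤ 9 / 2) :
    ‖∫ u in (-1 : ℝ)..b, hh Q ((u : ℂ) + (c : ℂ) * I) / ((u : ℂ) + (c : ℂ) * I)‖ ≤
      Y ^ (5 : ℝ) * (Real.exp (81 / 4) * Real.exp (-(H ^ 2))) * (11 / 2) := by
  have hQ0 : 0 < Q := by linarith
  have hY0 : 0 < Y := by linarith
  have h1 : ∀ u ∈ Set.uIoc (-1 : ℝ) b,
      ‖hh Q ((u : ℂ) + (c : ℂ) * I) / ((u : ℂ) + (c : ℂ) * I)‖ ≤
        Y ^ (5 : ℝ) * (Real.exp (81 / 4) * Real.exp (-(H ^ 2))) := by
    intro u hu
    rw [Set.uIoc_of_le (by linarith)] at hu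
    refine (norm_div_le' (one_le_norm_im hH)).trans ?_
    rw [hh_norm hQ0]
    refine mul_le_mul ?_ ?_ (Real.exp_pos _).le (by positivity)
    · exact (Real.rpow_le_rpow_of_exponent_le hQ (by linarith [hu.2])).trans
        (Real.rpow_le_rpow hQ0.le hQY (by norm_num))
    · rw [← Real.exp_add, hc]
      apply Real.exp_le_exp.2
      nlinarith [hu.1, hu.2]
  have h2 := intervalIntegral.norm_integral_le_of_norm_le_const h1
  refine h2.trans (mul_le_mul_of_nonneg_left ?_ (by positivity))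
  rw [abs_of_nonneg (by linarith)]
  linarith

end KE50

theorem st_ke1 : ST_KE1 := by
  set G : ℝ := ∫ v : ℝ, Real.exp (-v ^ 2) with hG
  have hG0 : 0 ≤ G := integral_nonneg fun v => (Real.exp_pos _).le
  refine ⟨Real.exp (81 / 4) * G + Real.exp 1 * G + 11 * Real.exp (81 / 4) + 1, by positivity, ?_⟩
  intro Y H x n hY hH hx hn
  have hn1 : (1 : ℝ) ≤ n := by exact_mod_cast hn
  have hn0 : (0 : ℝ) < n := by linarith
  have hY0 : 0 < Y := by linarith
  have hQ : 0 < Y / n := div_pos hY0 hn0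
  have hb1 : 1 ≤ 5 - x := by linarith [hx.2]
  have hb2 : 5 - x ≤ 9 / 2 := by linarith [hx.1]
  have h2pi : ‖((1 / (2 * Real.pi) : ℝ) : ℂ)‖ ≤ 1 := by
    rw [Complex.norm_real, Real.norm_of_nonneg (by positivity)]
    rw [div_le_one (by positivity)]
    linarith [Real.pi_gt_three]
  have hKK : KK Y H x n = ((1 / (2 * Real.pi) : ℝ) : ℂ) * ∫ v in (-H)..H,
      KE50.hh (Y / n) (((5 - x : ℝ) : ℂ) + (v : ℂ) * I) / (((5 - x : ℝ) : ℂ) + (v : ℂ) * I) := rfl
  constructor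
  · have h1 : ‖∫ v in (-H)..H, KE50.hh (Y / n) (((5 - x : ℝ) : ℂ) + (v : ℂ) * I) /
        (((5 - x : ℝ) : ℂ) + (v : ℂ) * I)‖ ≤ ((Y / n) ^ (5 - x) * Real.exp (81 / 4)) * G := by
      refine KE50.gauss_bd _ (by positivity) (by linarith) fun v => ?_
      refine (KE50.norm_div_le' (KE50.one_le_norm_re (by rw [abs_of_nonneg] <;> linarith))).trans ?_
      rw [KE50.hh_norm hQ, mul_assoc]
      refine mul_le_mul_of_nonneg_left ?_ (by positivity)
      rw [← Real.exp_add]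
      apply Real.exp_le_exp.2
      nlinarith
    rw [hKK, norm_mul]
    have h2 : ‖((1 / (2 * Real.pi) : ℝ) : ℂ)‖ * ‖∫ v in (-H)..H,
        KE50.hh (Y / n) (((5 - x : ℝ) : ℂ) + (v : ℂ) * I) /
          (((5 - x : ℝ) : ℂ) + (v : ℂ) * I)‖ ≤ 1 * (((Y / n) ^ (5 - x) * Real.exp (81 / 4)) * G) :=
      mul_le_mul h2pi h1 (norm_nonneg _) zero_le_one
    refine h2.trans ?_
    have h3 : 0 ≤ (Y / n) ^ (5 - x) := by positivity
    have h4 : 0 ≤ Real.exp 1 * G + 11 * Real.exp (81 / 4) + 1 := by positivity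
    nlinarith [mul_nonneg h3 h4]
  · intro hnY
    have hQ1 : 1 ≤ Y / n := (one_le_div hn0).2 hnY
    have hQY : Y / n ≤ Y := div_le_self hY0.le hn1
    have hrect := KE50.rect (KE50.hh_diff hQ) (by linarith : 0 < 5 - x) (by linarith : 0 < H)
    have h0 : KE50.hh (Y / n) 0 = 1 := by
      simp [KE50.hh]
    rw [h0, mul_one] at hrect
    have hB := KE50.hor (Q := Y / n) (Y := Y) (H := H) (b := 5 - x) (c := -H) hQ1 hQY
      (by rw [abs_neg, abs_of_nonneg] <;> linarith) (by ring) (by linarith) hb2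
    have hT := KE50.hor (Q := Y / n) (Y := Y) (H := H) (b := 5 - x) (c := H) hQ1 hQY
      (by rw [abs_of_nonneg] <;> linarith) rfl (by linarith) hb2
    have hL : ‖∫ v in (-H)..H, KE50.hh (Y / n) (((-1 : ℝ) : ℂ) + (v : ℂ) * I) /
        (((-1 : ℝ) : ℂ) + (v : ℂ) * I)‖ ≤ ((n / Y) * Real.exp 1) * G := by
      refine KE50.gauss_bd _ (by positivity) (by linarith) fun v => ?_
      refine (KE50.norm_div_le' (KE50.one_le_norm_re (by norm_num))).trans ?_
      rw [KE50.hh_norm hQ, Real.rpow_neg_one, inv_div, mul_assoc, ← Real.exp_add]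
      refine mul_le_mul_of_nonneg_left ?_ (by positivity)
      apply Real.exp_le_exp.2
      linarith
    rw [hKK]
    generalize (∫ v in (-H)..H, KE50.hh (Y / n) (((5 - x : ℝ) : ℂ) + (v : ℂ) * I) /
      (((5 - x : ℝ) : ℂ) + (v : ℂ) * I)) = R at hrect
    generalize (∫ v in (-H)..H, KE50.hh (Y / n) (((-1 : ℝ) : ℂ) + (v : ℂ) * I) /
      (((-1 : ℝ) : ℂ) + (v : ℂ) * I)) = L at hrect hL
    generalize (∫ u in (-1 : ℝ)..(5 - x), KE50.hh (Y / n) ((u : ℂ) + ((-H : ℝ) : ℂ) * I) /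
      ((u : ℂ) + ((-H : ℝ) : ℂ) * I)) = B at hrect hB
    generalize (∫ u in (-1 : ℝ)..(5 - x), KE50.hh (Y / n) ((u : ℂ) + (H : ℂ) * I) /
      ((u : ℂ) + (H : ℂ) * I)) = T at hrect hT
    have hpi : (Real.pi : ℂ) ≠ 0 := by exact_mod_cast Real.pi_ne_zero
    have hR : R = 2 * Real.pi + (L + I * B - I * T) := by
      linear_combination (-I) * hrect + (R - L - 2 * Real.pi) * I_mul_I
    have hK1 : ((1 / (2 * Real.pi) : ℝ) : ℂ) * R - 1 =
        ((1 / (2 * Real.pi) : ℝ) : ℂ) * (L + I * B - I * T) := by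
      rw [hR]
      push_cast
      field_simp
      ring
    rw [hK1, norm_mul]
    have h5 : ‖L + I * B - I * T‖ ≤ ‖L‖ + ‖B‖ + ‖T‖ := by
      refine (norm_sub_le _ _).trans ?_
      have h6 := norm_add_le L (I * B)
      rw [norm_mul, Complex.norm_I, one_mul] at h6
      rw [norm_mul, Complex.norm_I, one_mul]
      linarith
    have h7 : ‖((1 / (2 * Real.pi) : ℝ) : ℂ)‖ * ‖L + I * B - I * T‖ ≤ 1 * (‖L‖ + ‖B‖ + ‖T‖) :=
      mul_le_mul h2pi h5 (norm_nonneg _) zero_le_one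
    refine h7.trans ?_
    have p1 : 0 ≤ (n : ℝ) / Y := by positivity
    have p2 : 0 ≤ Y ^ (5 : ℝ) * Real.exp (-(H ^ 2)) := by positivity
    have p3 : 0 ≤ Real.exp (81 / 4) * G := by positivity
    have p4 : 0 ≤ Real.exp 1 * G := by positivity
    have p5 : 0 ≤ Real.exp (81 / 4 : ℝ) := by positivity
    nlinarith [mul_nonneg p1 p3, mul_nonneg p1 p5, mul_nonneg p2 p3, mul_nonneg p2 p4,
      mul_nonneg p2 p5]

end Pool.Agent.Helper57.QZ
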